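import Pool.Agent.Y59.RI.Main
import Pool.Agent.Y59.RI.Conv

set_option autoImplicit false

/-!
# Prescribed isotropy representations, not necessarily faithful

For an affine variety `X = Spec R` over `ℂ` the points are the `ℂ`-algebra maps `R → ℂ`.
-/

namespace Pool.Agent.Results.MP_322e80_ag.KernelClassification

/-- The Zariski tangent space of `X = Spec R` at the `ℂ`-point `x`: the space of point derivations
of `R` at `x`. -/
def TangentAt {R : Type} [CommRing R] [Algebra ℂ R] (x : R →ₐ[ℂ] ℂ) :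
    Submodule ℂ (R →ₗ[ℂ] ℂ) where
  carrier := {D | ∀ f g : R, D (f * g) = x f * D g + x g * D f}
  add_mem' := by
    intro a b ha hb f g
    simp only [LinearMap.add_apply, ha f g, hb f g]; ring
  zero_mem' := by intro f g; simp
  smul_mem' := by
    intro c a ha f g
    simp only [LinearMap.smul_apply, ha f g, smul_eq_mul]; ring

/-- The left action of `G` on the points of `X = Spec R` when `G` acts on the functions by `α`. -/
def onPoint {G R : Type} [Group G] [CommRing R] [Algebra ℂ R] (α : G →* (R ≃ₐ[ℂ] R)) (g : G)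
    (x : R →ₐ[ℂ] ℂ) : R →ₐ[ℂ] ℂ :=
  x.comp (α g⁻¹).toAlgHom

/-- The left action of `G` on linear functionals of `R`, in particular on tangent vectors. -/
def onTangent {G R : Type} [Group G] [CommRing R] [Algebra ℂ R] (α : G →* (R ≃ₐ[ℂ] R)) (g : G)
    (D : R →ₗ[ℂ] ℂ) : R →ₗ[ℂ] ℂ :=
  D.comp (α g⁻¹).toLinearMap

/-- The subgroup `H` fixes the point `x`, and the tangent space at `x`, with its isotropy action
of `H`, is isomorphic to the representation `ρ`. -/
def HasIsotropy {G R : Type} [Group G] [CommRing R] [Algebra ℂ R] (α : G →* (R ≃ₐ[ℂ] R))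
    (H : Subgroup G) {V : Type} [AddCommGroup V] [Module ℂ V] (ρ : Representation ℂ H V)
    (x : R →ₐ[ℂ] ℂ) : Prop :=
  (∀ h : H, onPoint α h x = x) ∧
    ∃ e : V ≃ₗ[ℂ] TangentAt x, ∀ (h : H) (v : V),
      (e (ρ h v) : R →ₗ[ℂ] ℂ) = onTangent α h (e v)

/-- The data `(H i, ρ i)` are realised by an action of `G` with kernel `N` on an irreducible affine
variety `X = Spec R` of dimension `d`: there are pairwise distinct points `x i`, fixed by `H i`,
with isotropy representation `ρ i` on the tangent space. -/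
def Realised {G : Type} [Group G] {r : ℕ} (H : Fin r → Subgroup G) (d : ℕ) {V : Fin r → Type}
    [∀ i, AddCommGroup (V i)] [∀ i, Module ℂ (V i)] (ρ : ∀ i, Representation ℂ (H i) (V i))
    (N : Subgroup G) : Prop :=
  ∃ (R : Type) (_ : CommRing R) (_ : Algebra ℂ R) (α : G →* (R ≃ₐ[ℂ] R)),
    IsDomain R ∧ Algebra.FiniteType ℂ R ∧ ringKrullDim R = (d : WithBot ℕ∞) ∧ α.ker = N ∧
    ∃ x : Fin r → (R →ₐ[ℂ] ℂ), Function.Injective x ∧ ∀ i, HasIsotropy α (H i) (ρ i) (x i)

/-- The same, and in addition the points `x i` lie in pairwise distinct orbits and the stabiliser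
of `x i` is exactly `H i N`. -/
def ExactlyRealised {G : Type} [Group G] {r : ℕ} (H : Fin r → Subgroup G) (d : ℕ)
    {V : Fin r → Type} [∀ i, AddCommGroup (V i)] [∀ i, Module ℂ (V i)]
    (ρ : ∀ i, Representation ℂ (H i) (V i)) (N : Subgroup G) : Prop :=
  ∃ (R : Type) (_ : CommRing R) (_ : Algebra ℂ R) (α : G →* (R ≃ₐ[ℂ] R)),
    IsDomain R ∧ Algebra.FiniteType ℂ R ∧ ringKrullDim R = (d : WithBot ℕ∞) ∧ α.ker = N ∧
    ∃ x : Fin r → (R →ₐ[ℂ] ℂ), (∀ i, HasIsotropy α (H i) (ρ i) (x i)) ∧
      ∀ i j g, onPoint α g (x i) = x j ↔ i = j ∧ g ∈ H i ⊔ N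

theorem faithful_version (G : Type) [Group G] [Finite G] (r : ℕ) (H : Fin r → Subgroup G)
    (d : ℕ) (hd : 1 ≤ d) (V : Fin r → Type) [∀ i, AddCommGroup (V i)] [∀ i, Module ℂ (V i)]
    (hV : ∀ i, Module.finrank ℂ (V i) = d) (ρ : ∀ i, Representation ℂ (H i) (V i))
    (hρ : ∀ i, Function.Injective (ρ i)) :
    ∃ (R : Type) (_ : CommRing R) (_ : Algebra ℂ R) (α : G →* (R ≃ₐ[ℂ] R)),
      IsDomain R ∧ Algebra.FiniteType ℂ R ∧ ringKrullDim R = (d : WithBot ℕ∞) ∧
      Function.Injective α ∧
      ∃ x : Fin r → (R →ₐ[ℂ] ℂ), (∀ i, HasIsotropy α (H i) (ρ i) (x i)) ∧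
        ∀ i j g, onPoint α g (x i) = x j ↔ i = j ∧ g ∈ H i := by
  classical
  have hfin : ∀ i, Module.Finite ℂ (V i) := fun i =>
    Module.finite_of_finrank_pos (by rw [hV i]; exact hd)
  let b : ∀ i, Module.Basis (Fin d) ℂ (V i) := fun i => Module.finBasisOfFinrankEq ℂ (V i) (hV i)
  let ρm : ∀ i, H i →* Matrix (Fin d) (Fin d) ℂ := fun i =>
    ((LinearMap.toMatrixAlgEquiv (b i)) : (V i →ₗ[ℂ] V i) →* Matrix (Fin d) (Fin d) ℂ).comp (ρ i)
  have hρm : ∀ i, Function.Injective (ρm i) := fun i =>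
    (LinearMap.toMatrixAlgEquiv (b i)).injective.comp (hρ i)
  let H' : Option (Fin r) → Subgroup G := fun o => o.elim ⊥ H
  let ρ' : ∀ o, H' o →* Matrix (Fin d) (Fin d) ℂ := fun o => match o with
    | none => 1
    | some i => ρm i
  have hρ' : ∀ o, Function.Injective (ρ' o) := by
    intro o
    match o with
    | none =>
      intro a c _
      have ha : (a : G) = 1 := Subgroup.mem_bot.1 a.2
      have hc : (c : G) = 1 := Subgroup.mem_bot.1 c.2
      exact Subtype.ext (ha.trans hc.symm)
    | some i => exact hρm i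
  obtain ⟨R, r1, r2, r3, r4, α, x, e1, e2, e3, e5, e4⟩ :=
    Pool.Agent.Y59.RI.matrix_version2 G (Option (Fin r)) d hd H' ρ' hρ'
  have hexact : ∀ i j g, onPoint α g (x (some i)) = x (some j) ↔ i = j ∧ g ∈ H i := by
    intro i j g
    constructor
    · intro h
      have h1 := e5 (some i) (some j) g⁻¹ (fun f => congrArg (fun z : R →ₐ[ℂ] ℂ => z f) h)
      exact ⟨Option.some.inj h1.1, by simpa using (H i).inv_mem h1.2⟩
    · rintro ⟨rfl, hg⟩
      refine AlgHom.ext fun f => ?_
      exact e3 (some i) ⟨g⁻¹, (H i).inv_mem hg⟩ f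
  refine ⟨R, r1, r3, α, r2, r4, e1, ?_, fun i => x (some i), fun i => ⟨?_, ?_⟩, hexact⟩
  · rw [injective_iff_map_eq_one]
    intro g hg
    have h1 := e5 none none g (fun f => by rw [hg]; rfl)
    exact Subgroup.mem_bot.1 h1.2
  · intro h
    exact (hexact i i h).2 ⟨rfl, h.2⟩
  · obtain ⟨e, he⟩ := e4 (some i)
    let E : V i ≃ₗ[ℂ] TangentAt (x (some i)) := (b i).equivFun.trans e.symm
    refine ⟨E, fun h v => LinearMap.ext fun f => ?_⟩
    let D : Pool.Agent.Helper198.tangentSpace (x (some i)) := e.symm ((b i).equivFun v)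
    have hfix : ∀ f, x (some i) (α (h : G)⁻¹ f) = x (some i) f := by
      intro f
      exact e3 (some i) h⁻¹ f
    let D' : Pool.Agent.Helper198.tangentSpace (x (some i)) :=
      ⟨D.1.comp (α (h : G)⁻¹ : R ≃ₐ[ℂ] R).toLinearMap, by
        intro f g
        have h1 := D.2 (α (h : G)⁻¹ f) (α (h : G)⁻¹ g)
        simp only [LinearMap.comp_apply, AlgEquiv.toLinearMap_apply, map_mul]
        rw [h1, hfix, hfix]⟩
    have h2 : e D' = (b i).equivFun (ρ i h v) := by
      funext a
      rw [he h D D' (fun f => rfl) a]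
      have h3 : e D = (b i).equivFun v := e.apply_symm_apply _
      rw [h3]
      exact congrFun (LinearMap.toMatrix_mulVec_repr (b i) (b i) (ρ i h) v) a
    have h5 : e.symm ((b i).equivFun (ρ i h v)) = D' := by
      rw [← h2, e.symm_apply_apply]
    change (e.symm ((b i).equivFun (ρ i h v))).1 f = D.1 (α (h : G)⁻¹ f)
    rw [h5]
    rfl

theorem exact_of_kernel (G : Type) [Group G] [Finite G] (r : ℕ) (H : Fin r → Subgroup G)
    (d : ℕ) (hd : 1 ≤ d) (V : Fin r → Type) [∀ i, AddCommGroup (V i)] [∀ i, Module ℂ (V i)]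
    (hV : ∀ i, Module.finrank ℂ (V i) = d) (ρ : ∀ i, Representation ℂ (H i) (V i))
    (N : Subgroup G) [N.Normal] (hN : ∀ i (h : H i), (h : G) ∈ N ↔ ρ i h = 1) :
    ExactlyRealised H d ρ N := by
  classical
  let π : ∀ i, H i →* (H i).map (QuotientGroup.mk' N) := fun i =>
    (QuotientGroup.mk' N).subgroupMap (H i)
  have hπ : ∀ i, Function.Surjective (π i) := fun i =>
    (QuotientGroup.mk' N).subgroupMap_surjective (H i)
  have hπ1 : ∀ i (h : H i), ((π i h : (H i).map (QuotientGroup.mk' N)) : G ⧸ N) =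
      QuotientGroup.mk' N (h : G) := fun i h => rfl
  have hker : ∀ i (h : H i), h ∈ (π i).ker ↔ (h : G) ∈ N := by
    intro i h
    rw [MonoidHom.mem_ker, Subtype.ext_iff, hπ1]
    exact QuotientGroup.eq_one_iff (h : G)
  have hle : ∀ i, (π i).ker ≤ MonoidHom.ker (ρ i) := by
    intro i h hh
    rw [MonoidHom.mem_ker]
    exact (hN i h).1 ((hker i h).1 hh)
  let ρ' : ∀ i, Representation ℂ ((H i).map (QuotientGroup.mk' N)) (V i) := fun i =>
    (QuotientGroup.lift (π i).ker (ρ i) (hle i)).comp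
      (QuotientGroup.quotientKerEquivOfSurjective (π i) (hπ i)).symm.toMonoidHom
  have hρ' : ∀ i (h : H i), ρ' i (π i h) = ρ i h := by
    intro i h
    have h1 : (QuotientGroup.quotientKerEquivOfSurjective (π i) (hπ i)).symm (π i h) =
        (QuotientGroup.mk h : H i ⧸ (π i).ker) := by
      rw [MulEquiv.symm_apply_eq]
      rfl
    show (QuotientGroup.lift (π i).ker (ρ i) (hle i))
      ((QuotientGroup.quotientKerEquivOfSurjective (π i) (hπ i)).symm (π i h)) = _
    rw [h1]
    rfl
  have hinj : ∀ i, Function.Injective (ρ' i) := by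
    intro i
    rw [injective_iff_map_eq_one]
    intro a ha
    obtain ⟨h, rfl⟩ := hπ i a
    rw [hρ'] at ha
    exact (MonoidHom.mem_ker).1 ((hker i h).2 ((hN i h).2 ha))
  obtain ⟨R, i1, i2, α, h1, h2, h3, h4, x, h5, h6⟩ :=
    faithful_version (G ⧸ N) r (fun i => (H i).map (QuotientGroup.mk' N)) d hd V hV ρ' hinj
  refine ⟨R, i1, i2, α.comp (QuotientGroup.mk' N), h1, h2, h3, ?_, x, ?_, ?_⟩
  · ext g
    rw [MonoidHom.mem_ker, MonoidHom.comp_apply]
    constructor
    · intro hg
      have := h4 (hg.trans (map_one α).symm)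
      exact (QuotientGroup.eq_one_iff g).1 this
    · intro hg
      have : QuotientGroup.mk' N g = 1 := (QuotientGroup.eq_one_iff g).2 hg
      rw [this, map_one]
  · intro i
    obtain ⟨hfix, e, he⟩ := h5 i
    refine ⟨fun h => ?_, e, fun h v => ?_⟩
    · exact hfix (π i h)
    · rw [← hρ' i h, he (π i h) v]
      rfl
  · intro i j g
    have hh : onPoint (α.comp (QuotientGroup.mk' N)) g (x i) = onPoint α (QuotientGroup.mk' N g)
        (x i) := rfl
    rw [hh, h6]
    have h7 : QuotientGroup.mk' N g ∈ (H i).map (QuotientGroup.mk' N) ↔ g ∈ H i ⊔ N := by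
      rw [← Subgroup.mem_comap, QuotientGroup.comap_map_mk', sup_comm]
    rw [h7]

/-- Classification of the realisable data, for arbitrary representations. Given a finite group `G`,
subgroups `H i` and arbitrary (not necessarily faithful) representations `ρ i` of `H i` of
dimension `d ≥ 1`, the data are realised on an irreducible affine `d`-dimensional variety by an
action of `G` with kernel `N` if and only if `N` is a normal subgroup and `N ∩ H i` is the kernel
of `ρ i` for every `i`; moreover the points can then be chosen in pairwise distinct orbits and with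
stabilisers exactly `H i N`. If all `ρ i` are faithful then `N = 1` is allowed, hence the data are
realised by a faithful action for which the stabilisers are exactly the `H i`. -/
theorem result (G : Type) [Group G] [Finite G] (r : ℕ) (H : Fin r → Subgroup G)
    (d : ℕ) (hd : 1 ≤ d) (V : Fin r → Type) [∀ i, AddCommGroup (V i)] [∀ i, Module ℂ (V i)]
    (hV : ∀ i, Module.finrank ℂ (V i) = d) (ρ : ∀ i, Representation ℂ (H i) (V i))
    (N : Subgroup G) :
    (Realised H d ρ N ↔ N.Normal ∧ ∀ i (h : H i), (h : G) ∈ N ↔ ρ i h = 1) ∧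
    (Realised H d ρ N → ExactlyRealised H d ρ N) := by
  have key : Realised H d ρ N → N.Normal ∧ ∀ i (h : H i), (h : G) ∈ N ↔ ρ i h = 1 := by
    rintro ⟨R, i1, i2, α, h1, h2, h3, rfl, x, h4, h5⟩
    refine ⟨inferInstance, fun i h => ?_⟩
    obtain ⟨hfix, e, he⟩ := h5 i
    constructor
    · intro hh
      have h6 : α ((h : G)⁻¹) = 1 := by
        rw [map_inv, MonoidHom.mem_ker.1 hh, inv_one]
      refine LinearMap.ext fun v => ?_
      apply e.injective
      apply Subtype.ext
      rw [he h v]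
      refine LinearMap.ext fun f => ?_
      show (e v : R →ₗ[ℂ] ℂ) (α ((h : G)⁻¹) f) = _
      rw [h6]
      rfl
    · intro hh
      have := h2
      have : IsNoetherianRing R := Algebra.FiniteType.isNoetherianRing ℂ R
      have h7 : α ((h : G)⁻¹) = 1 := by
        refine Pool.Agent.Y59.RI.eq_one_of_tangent (α ((h : G)⁻¹)) (x i) ?_ ?_
          (n := Nat.card G) Nat.card_pos ?_
        · intro f
          exact congrArg (fun z : R →ₐ[ℂ] ℂ => z f) (hfix h)
        · intro D hD f
          obtain ⟨v, hv⟩ := e.surjective ⟨D, hD⟩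
          have h8 := he h v
          rw [hh, hv] at h8
          have h9 : e ((1 : V i →ₗ[ℂ] V i) v) = ⟨D, hD⟩ := hv
          rw [h9] at h8
          have h10 := congrArg (fun z : R →ₗ[ℂ] ℂ => z f) h8
          exact h10.symm
        · rw [← map_pow, pow_card_eq_one', map_one]
      rw [MonoidHom.mem_ker]
      have h8 := h7
      rw [map_inv, inv_eq_one] at h8
      exact h8
  have back : (N.Normal ∧ ∀ i (h : H i), (h : G) ∈ N ↔ ρ i h = 1) → ExactlyRealised H d ρ N := by
    rintro ⟨hn, hN⟩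
    exact exact_of_kernel G r H d hd V hV ρ N hN
  refine ⟨⟨key, fun h => ?_⟩, fun h => back (key h)⟩
  obtain ⟨R, i1, i2, α, h1, h2, h3, h4, x, h5, h6⟩ := back h
  refine ⟨R, i1, i2, α, h1, h2, h3, h4, x, ?_, h5⟩
  intro i j hij
  have h7 : onPoint α 1 (x i) = x j := by
    rw [← hij]
    refine AlgHom.ext fun f => ?_
    show x i (α (1 : G)⁻¹ f) = x i f
    rw [inv_one, map_one]
    rfl
  exact ((h6 i j 1).1 h7).1

end Pool.Agent.Results.MP_322e80_ag.KernelClassification
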